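import Pool.Agent.Helper96.SE.Stmts
import Pool.Agent.Helper95.BC.REL

set_option autoImplicit false

/-! # REL: 2-factors of the lattice graph are short 2-factors of the cities (adapted from
Helper95/BC/REL.lean) -/

namespace Pool.Agent.Helper96.SE

open Pool.Agent.Helper52.Grid
open Pool.Agent.Helper31.BC (dst Pair xv ST_SUM rel_pos rel_deg rel_two rel_tot rel_all rel_count
  rel_mem_nb)
open Pool.Agent.Helper68.LP (pert dbl ucost scale Costs)

/-- integral vectors on the lattice with degrees 2 -/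
structure RelLW (h v : ℕ → ℕ → ℕ) (X Y : ℕ → ℕ → ℤ) : Prop where
  h0 : ∀ x y, h x y = 0 → X x y = 1
  h4 : ∀ x y, h x y ≠ 0 → h x y ≠ 2 → X x y = 0
  v0 : ∀ x y, v x y = 0 → Y x y = 1
  v4 : ∀ x y, v x y ≠ 0 → v x y ≠ 2 → Y x y = 0
  hle : ∀ x y, X x y ≤ 1
  vle : ∀ x y, Y x y ≤ 1
  hV : ∀ x y, X x y ≠ 0 → Vert h v (x, y) ∧ Vert h v (x + 1, y)
  vV : ∀ x y, Y x y ≠ 0 → Vert h v (x, y) ∧ Vert h v (x, y + 1)
  deg : ∀ x y, Vert h v (x + 1, y + 1) →
    X (x + 1) (y + 1) + X x (y + 1) + Y (x + 1) (y + 1) + Y (x + 1) y = 2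

theorem rel_lw {h v : ℕ → ℕ → ℕ} {hU vU : ℕ → ℕ → Bool} (hb : BV h v hU vU) :
    RelLW h v (fun x y => ((hU x y).toNat : ℤ)) (fun x y => ((vU x y).toNat : ℤ)) where
  h0 := by
    intro x y g
    simp [hb.h0 x y g]
  h4 := by
    intro x y g g'
    simp [hb.h4 x y g g']
  v0 := by
    intro x y g
    simp [hb.v0 x y g]
  v4 := by
    intro x y g g'
    simp [hb.v4 x y g g']
  hle := by
    intro x y
    have := Bool.toNat_le (hU x y)
    omega
  vle := by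
    intro x y
    have := Bool.toNat_le (vU x y)
    omega
  hV := by
    intro x y g
    apply hb.hV x y
    by_contra hc
    rw [Bool.not_eq_true] at hc
    apply g
    simp [hc]
  vV := by
    intro x y g
    apply hb.vV x y
    by_contra hc
    rw [Bool.not_eq_true] at hc
    apply g
    simp [hc]
  deg := by
    intro x y g
    have := hb.deg x y g
    omega

theorem rel_deg2w (hSUM : ST_SUM) {n N : ℕ} {h v : ℕ → ℕ → ℕ} {p : Fin n → Pt} (hB : Box h v N)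
    (hp : Function.Injective p) (hmem : ∀ a, Vert h v a ↔ ∃ i, p i = a) {X Y : ℕ → ℕ → ℤ}
    (hL : RelLW h v X Y) (i : Fin n) :
    ∑ e : Pair n, (if e.1.1 = i ∨ e.1.2 = i then xv X Y p e else 0) = 2 := by
  rw [rel_deg hSUM hB hp hmem X Y hL.hV hL.vV]
  have hvi : Vert h v (p i) := (hmem _).mpr ⟨i, rfl⟩
  obtain ⟨h1, h2⟩ := rel_pos hB hvi
  obtain ⟨a, b, hab⟩ : ∃ a b, p i = (a + 1, b + 1) := ⟨(p i).1 - 1, (p i).2 - 1, by
    apply Prod.ext
    · simp only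
      omega
    · simp only
      omega⟩
  rw [hab] at hvi ⊢
  exact hL.deg a b hvi

theorem rel_lew {n : ℕ} {h v : ℕ → ℕ → ℕ} {p : Fin n → Pt} {X Y : ℕ → ℕ → ℤ}
    (hL : RelLW h v X Y) (e : Pair n) : xv X Y p e ≤ 1 := by
  unfold xv ucost
  split_ifs
  · exact hL.hle _ _
  · exact hL.hle _ _
  · exact hL.vle _ _
  · exact hL.vle _ _
  · norm_num

theorem rel_costw (hSUM : ST_SUM) {n N W : ℕ} {h v : ℕ → ℕ → ℕ} {p : Fin n → Pt} (hB : Box h v N)
    (hc : Costs h v) (hp : Function.Injective p) (hmem : ∀ a, Vert h v a ↔ ∃ i, p i = a)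
    {X Y : ℕ → ℕ → ℤ} (hL : RelLW h v X Y)
    (hW : W + ∑ i, Pool.Agent.Helper68.LP.fdeg h v (p i) = 2 * n) :
    ∑ e : Pair n, xv X Y p e = n ∧
    ∑ e : Pair n, (ucost (dbl h) (dbl v) 0 (p e.1.1) (p e.1.2) : ℝ) * (xv X Y p e : ℝ) =
      2 * W := by
  have hn1 : 2 * ∑ e : Pair n, xv X Y p e = 2 * n := by
    have e1 : ∑ i : Fin n, ∑ e : Pair n, (if e.1.1 = i ∨ e.1.2 = i then xv X Y p e else 0) =
        2 * n := by
      rw [Finset.sum_congr rfl fun i _ => rel_deg2w hSUM hB hp hmem hL i, Finset.sum_const]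
      simp [mul_comm]
    rw [← e1, Finset.sum_comm, Finset.mul_sum]
    refine Finset.sum_congr rfl fun e _ => ?_
    rw [rel_two]
    simp
    ring
  have hn2 : ∑ e : Pair n, xv X Y p e = n := by omega
  refine ⟨hn2, ?_⟩
  obtain ⟨X1, hX1⟩ : ∃ X1 : ℕ → ℕ → ℤ, X1 = fun x y => if h x y = 0 then 1 else 0 := ⟨_, rfl⟩
  obtain ⟨Y1, hY1⟩ : ∃ Y1 : ℕ → ℕ → ℤ, Y1 = fun x y => if v x y = 0 then 1 else 0 := ⟨_, rfl⟩
  have sX : ∀ x y, X1 x y ≠ 0 → Vert h v (x, y) ∧ Vert h v (x + 1, y) := by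
    intro x y g
    have g0 : h x y = 0 := by
      by_contra hne
      rw [hX1] at g
      simp [hne] at g
    exact ⟨Or.inl g0, Or.inr (Or.inl g0)⟩
  have sY : ∀ x y, Y1 x y ≠ 0 → Vert h v (x, y) ∧ Vert h v (x, y + 1) := by
    intro x y g
    have g0 : v x y = 0 := by
      by_contra hne
      rw [hY1] at g
      simp [hne] at g
    exact ⟨Or.inr (Or.inr (Or.inl g0)), Or.inr (Or.inr (Or.inr g0))⟩
  have t1 := rel_tot hSUM hB hp hmem X1 Y1 sX sY
  have t2 := rel_all hSUM hB hp hmem X1 Y1 sX sY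
  have t3 := rel_all hSUM hB hp hmem X Y hL.hV hL.vV
  have t4 : ∑ i, (X1 (p i).1 (p i).2 + X1 ((p i).1 - 1) (p i).2 +
      Y1 (p i).1 (p i).2 + Y1 (p i).1 ((p i).2 - 1)) =
      ((∑ i, Pool.Agent.Helper68.LP.fdeg h v (p i) : ℕ) : ℤ) := by
    push_cast
    refine Finset.sum_congr rfl fun i _ => ?_
    rw [hX1, hY1]
    unfold Pool.Agent.Helper68.LP.fdeg
    push_cast
    rfl
  have hW' : (W : ℝ) + ((∑ i, Pool.Agent.Helper68.LP.fdeg h v (p i) : ℕ) : ℝ) = 2 * n := by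
    exact_mod_cast hW
  have t5 : (2 : ℝ) * ((∑ e : Pair n, xv X1 Y1 p e : ℤ) : ℝ) =
      ((∑ i, Pool.Agent.Helper68.LP.fdeg h v (p i) : ℕ) : ℝ) := by
    have := t1.trans t4
    exact_mod_cast this
  have hs := hSUM n N h v X Y p (fun a b => (ucost (dbl h) (dbl v) 0 a b : ℝ)) hB
    (fun a b => by
      rw [Pool.Agent.Helper68.LP.ucost_comm]) hL.hV hL.vV hp hmem
  rw [hs]
  have hpt : ∀ x y, (ucost (dbl h) (dbl v) 0 (x, y) (x + 1, y) : ℝ) * (X x y : ℝ) +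
      (ucost (dbl h) (dbl v) 0 (x, y) (x, y + 1) : ℝ) * (Y x y : ℝ) =
      4 * (((X x y : ℝ) + (Y x y : ℝ)) - ((X1 x y : ℝ) + (Y1 x y : ℝ))) := by
    intro x y
    have u1 : ucost (dbl h) (dbl v) 0 (x, y) (x + 1, y) = 2 * (h x y : ℤ) := by
      simp [ucost, dbl]
    have u2 : ucost (dbl h) (dbl v) 0 (x, y) (x, y + 1) = 2 * (v x y : ℤ) := by
      simp [ucost, dbl]
    rw [u1, u2]
    have w1 : (2 * (h x y : ℝ)) * (X x y : ℝ) = 4 * ((X x y : ℝ) - (X1 x y : ℝ)) := by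
      rcases hc.1 x y with g | g | g
      · have := hL.h0 x y g
        simp [hX1, g, this]
      · have h1 : X1 x y = 0 := by
          rw [hX1]
          simp [g]
        rw [h1, g]
        push_cast
        ring
      · have := hL.h4 x y (by omega) (by omega)
        simp [hX1, g, this]
    have w2 : (2 * (v x y : ℝ)) * (Y x y : ℝ) = 4 * ((Y x y : ℝ) - (Y1 x y : ℝ)) := by
      rcases hc.2 x y with g | g | g
      · have := hL.v0 x y g
        simp [hY1, g, this]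
      · have h1 : Y1 x y = 0 := by
          rw [hY1]
          simp [g]
        rw [h1, g]
        push_cast
        ring
      · have := hL.v4 x y (by omega) (by omega)
        simp [hY1, g, this]
    push_cast
    rw [w1, w2]
    ring
  simp only [hpt, ← Finset.mul_sum]
  simp only [Finset.sum_sub_distrib]
  rw [← t2, ← t3, hn2]
  push_cast
  push_cast at t5 hW'
  linarith

theorem rel_onew {n N M : ℕ} {h v : ℕ → ℕ → ℕ} {p : Fin n → Pt} (hB : Box h v N)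
    (hc : Costs h v) (hp : Function.Injective p) (hmem : ∀ a, Vert h v a ↔ ∃ i, p i = a)
    {X Y : ℕ → ℕ → ℤ} (hL : RelLW h v X Y) (hM : 8 * (N * 8) + 8 < M) (e : Pair n) :
    dst (pert (dbl h) (dbl v) (M : ℕ) (p e.1.1)) (pert (dbl h) (dbl v) (M : ℕ) (p e.1.2)) *
      (xv X Y p e : ℝ) ≤
    (M : ℝ) * (xv X Y p e : ℝ) +
      (ucost (dbl h) (dbl v) 0 (p e.1.1) (p e.1.2) : ℝ) * (xv X Y p e : ℝ) +
      (if Pool.Agent.Helper68.LP.Nb (p e.1.1) (p e.1.2) then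
        (2 * ((N * 8 : ℕ) : ℝ)) ^ 2 / (2 * ((M : ℝ) - 8)) else 0) := by
  have hbox : Pool.Agent.Helper68.LP.Box (dbl h) (dbl v) N 8 := by
    constructor
    · intro x y
      unfold dbl
      rcases hc.1 x y with g | g | g <;> rw [g] <;> norm_num
    · intro x y
      unfold dbl
      rcases hc.2 x y with g | g | g <;> rw [g] <;> norm_num
  have hb1 := Pool.Agent.Helper68.LP.vert_box hB ((hmem (p e.1.1)).mpr ⟨_, rfl⟩)
  have hb2 := Pool.Agent.Helper68.LP.vert_box hB ((hmem (p e.1.2)).mpr ⟨_, rfl⟩)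
  have hne : p e.1.1 ≠ p e.1.2 := fun g => e.2.ne (hp g)
  have hMr : ((8 * (N * 8) + 8 : ℕ) : ℝ) < M := by exact_mod_cast hM
  have hM8 : (8 : ℝ) < M := by
    push_cast at hMr
    have : (0 : ℝ) ≤ 8 * (N * 8) := by positivity
    linarith
  have herr : 0 ≤ (if Pool.Agent.Helper68.LP.Nb (p e.1.1) (p e.1.2) then
        (2 * ((N * 8 : ℕ) : ℝ)) ^ 2 / (2 * ((M : ℝ) - 8)) else 0) := by
    split_ifs
    · apply div_nonneg (by positivity)
      linarith
    · exact le_rfl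
  have hle : xv X Y p e ≤ 1 := rel_lew hL e
  have hlow := Pool.Agent.Helper68.LP.le_dE (M := ((M : ℕ) : ℤ)) (K := 0) hbox hb1 hb2 hne le_rfl
    (by
      push_cast
      have : (8 * (N * 8) + 8 : ℤ) < M := by exact_mod_cast hM
      linarith)
  by_cases hx : xv X Y p e = 1
  · have hnb : Pool.Agent.Helper68.LP.Nb (p e.1.1) (p e.1.2) := by
      by_contra hn
      have h0 : xv X Y p e = 0 := Pool.Agent.Helper68.LP.ucost_not hn
      rw [hx] at h0
      exact one_ne_zero h0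
    have hup := Pool.Agent.Helper68.LP.dE_le_of_nb (M := ((M : ℕ) : ℤ)) (K := 0) hbox hb1 hb2 hnb
      (by
        have : (8 * (N * 8) + 8 : ℤ) < M := by exact_mod_cast hM
        push_cast
        have h8 : (0 : ℤ) ≤ 8 * (N * 8) := by positivity
        linarith)
    rw [if_pos hnb, hx]
    push_cast at hup ⊢
    change Pool.Agent.Helper68.LP.dE _ _ * 1 ≤ _
    linarith
  · have hx0 : xv X Y p e ≤ 0 := by omega
    have hx0' : (xv X Y p e : ℝ) ≤ 0 := by exact_mod_cast hx0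
    have h1 := mul_le_mul_of_nonpos_right hlow hx0'
    push_cast at h1
    change Pool.Agent.Helper68.LP.dE _ _ * _ ≤ _
    push_cast at herr ⊢
    linarith

theorem rel_bin {n : ℕ} (hU vU : ℕ → ℕ → Bool) (p : Fin n → Pt) (e : Pair n) :
    xb hU vU p e = 0 ∨ xb hU vU p e = 1 := by
  have h01 : ∀ b : Bool, ((b.toNat : ℕ) : ℤ) = 0 ∨ ((b.toNat : ℕ) : ℤ) = 1 := by
    intro b
    cases b
    · left; rfl
    · right; rfl
  unfold xb xv ucost
  split_ifs
  · exact h01 _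
  · exact h01 _
  · exact h01 _
  · exact h01 _
  · left; rfl

theorem st_REL (hSUM : ST_SUM) : ST_REL := by
  intro n N W h v hU vU p hB hc hb hn hp hmem hW
  obtain ⟨X, hX⟩ : ∃ X : ℕ → ℕ → ℤ, X = fun x y => ((hU x y).toNat : ℤ) := ⟨_, rfl⟩
  obtain ⟨Y, hY⟩ : ∃ Y : ℕ → ℕ → ℤ, Y = fun x y => ((vU x y).toNat : ℤ) := ⟨_, rfl⟩
  have hL : RelLW h v X Y := by
    rw [hX, hY]
    exact rel_lw hb
  have hbin := rel_bin hU vU p
  unfold xb at hbin ⊢
  rw [← hX, ← hY] at hbin ⊢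
  obtain ⟨M, hMdef⟩ : ∃ M, M = scale n (2 * N) 4 W := ⟨_, rfl⟩
  rw [← hMdef]
  refine ⟨hbin, rel_deg2w hSUM hB hp hmem hL, ?_⟩
  have hMval : M = 512 * n * N ^ 2 + 128 * N + 6 * W + 15 := by
    rw [hMdef]
    unfold scale
    ring
  have hM1 : 8 * (N * 8) + 8 < M := by
    rw [hMval]
    have : 0 ≤ 512 * n * N ^ 2 := Nat.zero_le _
    omega
  obtain ⟨hn1, hcost⟩ := rel_costw hSUM hB hc hp hmem hL hW
  have hsum := Finset.sum_le_sum fun (e : Pair n) (_ : e ∈ Finset.univ) =>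
    rel_onew hB hc hp hmem hL hM1 e
  refine hsum.trans ?_
  rw [Finset.sum_add_distrib, Finset.sum_add_distrib, ← Finset.mul_sum, hcost,
    ← Finset.sum_filter, Finset.sum_const, nsmul_eq_mul]
  have hn1' : ∑ e : Pair n, (xv X Y p e : ℝ) = n := by exact_mod_cast hn1
  rw [hn1']
  have hcnt : ((((Finset.univ : Finset (Pair n)).filter fun e =>
      Pool.Agent.Helper68.LP.Nb (p e.1.1) (p e.1.2)).card : ℕ) : ℝ) ≤ 4 * n := by
    exact_mod_cast rel_count hp
  have hMr : (M : ℝ) = 512 * n * N ^ 2 + 128 * N + 6 * W + 15 := by exact_mod_cast hMval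
  have hpos : (0 : ℝ) < 2 * ((M : ℝ) - 8) := by
    rw [hMr]
    have h1 : (0 : ℝ) ≤ 512 * n * N ^ 2 + 128 * N + 6 * W := by positivity
    linarith
  have herr0 : 0 ≤ (2 * ((N * 8 : ℕ) : ℝ)) ^ 2 / (2 * ((M : ℝ) - 8)) :=
    div_nonneg (by positivity) hpos.le
  have herr : 4 * (n : ℝ) * ((2 * ((N * 8 : ℕ) : ℝ)) ^ 2 / (2 * ((M : ℝ) - 8))) ≤ 1 := by
    rw [mul_div_assoc', div_le_one hpos, hMr]
    push_cast
    have h1 : (0 : ℝ) ≤ 128 * N + 6 * W := by positivity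
    linarith
  have h2 := mul_le_mul_of_nonneg_right hcnt herr0
  push_cast
  push_cast at h2 herr
  linarith

end Pool.Agent.Helper96.SE
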